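import Pool.Agent.U724.NT.Growth2

/-!
# MP_15b3df_nt: one nonzero regulator gives exponentially many on the powers of a variety

Let `X` be a smooth projective variety over `ℚ` of dimension `e`, `q ≥ 2` and `j` integers, and

`r (n) : H_ℳ^(2 (j + n e) - q)(X ^ (2 n), ℚ(j + n e))_ℤ ⊗ ℝ ⟶ H_𝒟^(2 (j + n e) - q)(X ^ (2 n)/ℝ, ℝ(j + n e))`

the regulator of the question for `X ^ (2 n)`, with `i = 2 (j + n e) - q - 1`, `m = j + n e - q` (so
that `i - 2 m = q - 1` is fixed). Let `b` be the sum of the Betti numbers of `X`; the dimension of the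
target is at most `b ^ (2 n)`. Let `ρ (n)` be the rank of the group of algebraic cycles of middle
codimension on `X ^ (2 n)` modulo numerical equivalence. Assume the sign conjecture for `X` (known for
curves, surfaces, abelian varieties, complete intersections and their products).

Theorem. Suppose that the regulator `r (m)` is not zero for ONE number `m`, for a class `y`. Then
* `rank r (n) / ρ (n)` converges to an element of `{1, 2, 3, …} ∪ {∞}`;
* there is a numerical motive `S ≠ 0`, a summand of `h(X ^ (2 m))(m e)` modulo numerical equivalence,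
  such that `rank r (n) ≥ dim Hom (S, h(X ^ (2 n))(n e))` for ALL `n` (the regulators of the
  integral classes `c_* y`, for correspondences `c`, are as independent over `ℝ` as the cycles `c`
  are);
* `rank r (n) ≥ b ^ (2 n) / (2 (n + 1) ^ (b ^ 2))` for all `n ≥ 128 (m + 1) ^ 2 b ^ (4 m + 12)`;
* `log (rank r (n)) / n ⟶ 2 log b`.

So the integral motivic cohomology of the powers of `X` has, on the exponential scale, the rank
`b ^ (2 n)` which Beilinson's conjecture predicts, and this with regulators which are linearly
independent over `ℝ`, as soon as one regulator is not zero. Example: `X = E` is an elliptic curve over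
`ℚ`, `q = 2`, `j = 1`: by Beilinson there is a class in `H_ℳ^2(E, ℚ(2))_ℤ` with nonzero regulator. So
the rank of the regulator on `H_ℳ^(2 n)(E ^ (2 n), ℚ(n + 1))_ℤ` is at least `16 ^ n / (2 (n + 1) ^ 16)`
for all large `n`, while the dimension of the target is at most `16 ^ n`. The same holds, with
`b = 2 g + 2`, for the curves of genus `g` of the other results of this folder.

The setting. `C` is the category of the Chow motives over `ℚ` with real coefficients (with
correspondences of degree `0` and Tate twists), `T = h(X)` or any Chow motive with the sign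
conjecture, `T ⊗ Tᘁ = h(X × X)(e)`, `Λ = ℝ`, `R` is the singular cohomology with complex
coefficients, `M` the integral part of the motivic cohomology of weight `j` (an additive functor on `C`
by Beilinson and Scholl), `D` the Deligne cohomology, on which homologically trivial correspondences
act as zero, and `r : M ⟶ D` the regulator. The theorem is proved for all categories, functors and
natural transformations of this kind.

Idea of the proof. The law for additive functors and its explicit form (files `N64/AF`) are applied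
to the image of `r`. A power of a numerically trivial endomorphism `y` is homologically trivial, since
the traces of the powers of its realisation vanish by the sign conjecture; so `y` is nilpotent on the
image of `r`, and the image contains a simple constituent with all its multiplicities.
-/

set_option autoImplicit false

open CategoryTheory MonoidalCategory Module Filter Topology
open Pool.Agent.Y112.SR Pool.Agent.Y112.KD Pool.Agent.N64.AF Pool.Agent.U724.NT

namespace Pool.Agent.Results.MP_15b3df_nt.RegulatorGrowth

universe v u w t x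

/-- One nonzero regulator on a power of `X × X` determines the exponential growth of the ranks. -/
theorem result {C : Type u} [Category.{v} C] [Preadditive C] [MonoidalCategory C]
    [MonoidalPreadditive C] [SymmetricCategory C] [RightRigidCategory C]
    {Λ : Type t} [Field Λ] [CharZero Λ] [Linear Λ C] [MonoidalLinear Λ C]
    {K : Type w} [Field K] [IsAlgClosed K] [Algebra Λ K] (R : SuperRealisation C K)
    (hR : IsReal Λ R) (T : C) (hT : R.CPlus T) (hb : 0 < bt R T)
    (M D : C ⥤ ModuleCat.{x} Λ) [M.Additive] [M.Linear Λ] [D.Additive] [D.Linear Λ] (r : M ⟶ D)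
    (hhom : ∀ (a b : ℕ) (u : tp (T ⊗ Tᘁ) a ⟶ tp (T ⊗ Tᘁ) b), R.H.map u = 0 → D.map u = 0)
    (hfin : ∀ n, Module.Finite Λ (D.obj (tp (T ⊗ Tᘁ) n)))
    (hdim : ∀ n, finrank Λ (D.obj (tp (T ⊗ Tᘁ) n)) ≤ bt R T ^ (2 * n))
    (m : ℕ) (y : M.obj (tp (T ⊗ Tᘁ) m)) (hy : (r.app (tp (T ⊗ Tᘁ) m)).hom y ≠ 0) :
    (∃ N : ℕ∞, 1 ≤ N ∧ HasLaw Λ (T ⊗ Tᘁ) (imDim (T ⊗ Tᘁ) r) N) ∧
    (∃ (g : tp (T ⊗ Tᘁ) m ⟶ tp (T ⊗ Tᘁ) m) (k : ℕ), NumIdem g ∧ IsRk R g k ∧ 0 < k ∧
      0 < nr Λ g (𝟙 (tp (T ⊗ Tᘁ) m)) ∧
      ∀ n, ((nr Λ g (𝟙 (tp (T ⊗ Tᘁ) n)) : ℕ) : ℕ∞) ≤ imDim (T ⊗ Tᘁ) r n) ∧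
    (∀ n : ℕ, 128 * (m + 1) ^ 2 * bt R T ^ (4 * m + 12) ≤ n →
      ((bt R T ^ (2 * n) : ℕ) : ℕ∞) ≤
        (2 * (n + 1) ^ (bt R T ^ 2) : ℕ) * imDim (T ⊗ Tᘁ) r n) ∧
    Tendsto (fun n : ℕ => Real.log (imDim (T ⊗ Tᘁ) r n).toNat / n) atTop
      (𝓝 (2 * Real.log (bt R T))) :=
  growth_law hR hT hb M D r hhom hfin hdim m y hy

end Pool.Agent.Results.MP_15b3df_nt.RegulatorGrowth
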