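import Pool.Agent.U374.St.PMain
set_option autoImplicit false

/-!
Beilinson's conjecture on regulators for `i = dim X`, `m = 0`: on the hypersurfaces `W(z) = λ` of
dimension `s` in the torus with the coordinates `z_0, ..., z_s`, where the polynomials of the proper
faces of the Newton polytope of `W` divide Steinberg towers and the coefficients of `W` inside the
polytope are arbitrary algebraic integers, the symbol `{z_0, ..., z_s}` is integral for all
algebraic integers `λ`, and has a nonzero regulator for all but finitely many of them.
-/

namespace Pool.Agent.Results.MP_15b3df_nt.TemperedHypersurfaces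

open Pool.Agent.N65.TL

open Pool.Agent.U374.St

/-- Let `K` be a number field. The Steinberg towers in the first `k` of the variables
`z_0, ..., z_s` (`Tower k`) are the Laurent polynomials which arise by the following rules:
monomials `ζ z^m` in `z_0, ..., z_(k-1)` with a root of unity `ζ`; products; quotients by Steinberg
towers with integral coefficients, if they are Laurent polynomials; `T(z^(M_0), ..., z^(M_(k-1)))`
for a Steinberg tower `T` and linearly independent exponents `M_i` of monomials in
`z_0, ..., z_(k-1)`; Steinberg towers in `z_0, ..., z_(k-2)`; and `A z_(k-1)^e + B` with an integer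
`e ≠ 0` and Steinberg towers `A`, `B` in `z_0, ..., z_(k-2)`. `TameS G` says that `G Q` is a
Steinberg tower (`k = s + 1`) for a Laurent polynomial `Q ≠ 0` with integral coefficients.

Let `s ≥ 0` and let `W` be a Laurent polynomial in `z_0, ..., z_s` with coefficients in the ring of
integers of `K`, such that the origin is an interior point of the Newton polytope (`Interior`) and
for every functional `a ∈ ℤ^{s+1}`, `a ≠ 0`, the polynomial `face a W` of the terms of `W` on which
`a` is maximal satisfies `TameS` (`Tempered`). There is no condition on the coefficients of the
monomials in the interior of the Newton polytope. Let `A` be the coordinate ring of the hypersurface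
`W(z) = λ`, `z_i ≠ 0`, of dimension `s`.

(1) `W` is `Tempered` if all these face polynomials are `Tame`, that is, divide (with integral
quotient) a product of polynomials of simplex type `∑_i ε_i z^(m_i)`, `ε_i` roots of unity, `m_i`
affinely independent.

(2) For all algebraic integers `λ` of `K` the symbol `{z_0, ..., z_s}` in `K_(s+1)` of `A` has
unramified images in the Milnor K-theory of all fields `L` with a homomorphism `A → L`.

(3) For every complex embedding `σ` of `K` there is a real number `c ≠ 0` such that the following
holds: for every `ε > 0` there is a `C` such that for all `λ` in `K` with `|σ λ| ≥ C` there is a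
torus of dimension `s` in the complex points (over `σ`) of the hypersurface, on which the regulator
`r` of the symbol satisfies `|r / log |σ λ| - c| ≤ ε`.

(4) For all but finitely many algebraic integers `λ` of `K` there are a complex embedding `σ` of `K`
and a torus over `σ` on which the regulator of the symbol is not zero. -/
theorem result.{u, v} (s : ℕ) (K : Type u) [Field K] [NumberField K] (W : LP K (s + 1))
    (hint : Integral W) (hinterior : Interior W) :
    ((∀ a : Fin (s + 1) → ℤ, a ≠ 0 → Tame (face a W)) → Tempered W) ∧
    (Tempered W →
      (∀ lam : K, IsIntegral ℤ lam → HUnram.{u, v} W lam) ∧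
      (∀ σ : K →+* ℂ, ∃ c : ℝ, c ≠ 0 ∧ ∀ ε : ℝ, 0 < ε → ∃ C : ℝ, ∀ lam : K, C ≤ ‖σ lam‖ →
        ∃ r : ℝ, HasRegulator σ W lam r ∧ |r / Real.log ‖σ lam‖ - c| ≤ ε) ∧
      {lam : K | IsIntegral ℤ lam ∧
        ¬ ∃ (σ : K →+* ℂ) (r : ℝ), r ≠ 0 ∧ HasRegulator σ W lam r}.Finite) :=
  ⟨tempered_of_tame, fun hW => ⟨fun _ hlam => sym_mem_unramified hint hinterior hW hlam,
    fun σ => exists_asymptotic σ hinterior, finite_exceptions hinterior⟩⟩

end Pool.Agent.Results.MP_15b3df_nt.TemperedHypersurfaces
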