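import Pool.Agent.U759.TP.Reg
import Pool.Agent.U759.TP.Smooth
set_option autoImplicit false

/-!
Beilinson's conjecture on regulators (`i = 1`, `m = 0`, `n = 2`, curves over number fields): the pencils
`N(z) = λ G(x) ∏_j f_j(z) ^ m_j`, in which the polynomials `f_j` are torsion modulo the radical of `N`,
that is, the values of every `f_j` at the zeros of `N` are roots of unity, and `deg N` is greater than
the degree of `∏_j f_j ^ m_j`. For all large algebraic integers `λ` the curve is irreducible and smooth,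
for factors `g_0, ..., g_r` of `G` the `k r` symbols `{f_j(z), g_i(x) ^ (e_0) / g_0(x) ^ (e_i)}`,
`e_i = deg g_i`, are unramified at all discrete valuations, and their regulators are linearly
independent.

For `k = 1`, `f = z`, these are the curves `W(z) = λ G(x)` with a Laurent polynomial `W` whose zeros are
roots of unity. The new point is that several functions `f_j` are allowed, the zeros of which are
different points at infinity of the pencil. An example over `ℚ` is `(z² - z + 1)^a = λ G(x) z^p (z - 1)^q`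
with the two functions `z` and `z - 1`.

The proof. Unramified: at a discrete valuation with `v(x) < 0` the quotient of the `g_i` is a one-unit;
otherwise `v(z) ≥ 0` because of the degrees, `v(f_j) = 0` because `f_j` and `N` are coprime over the
ring of integers, and if some `v(g_i) > 0`, then `v(N) > 0` and `f_j` is torsion in the residue field.
Regulators: over a small loop around a zero of `f_l` in the `z`-plane the curve has, for large `λ`, a
loop for each `i` on which `x` is close to a zero of `g_i`; the regulator of the symbol of `f_j` and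
`g_m` on it is `δ_(jl) δ_(im) c log |λ| + O(1)` with `c > 0`. Irreducible: the branch of `x` over a
connected compact set which contains all zeros of `N` cannot change between two factors.
-/

namespace Pool.Agent.Results.MP_15b3df_nt.TorsionPencils

open Polynomial

open Pool.Agent.TH826.MK (KQ symb Torus Unramified)

open Pool.Agent.U759.TP

/-- The conditions on the polynomials in `z`: `N` and the `f_j` are monic with algebraic integers as
coefficients, the `f_j` are not constant and pairwise coprime, the exponents `m_j` are positive,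
`∑_j m_j deg f_j < deg N`, and every `f_j` is torsion modulo the radical of `N`: the polynomial `N`
divides a power of `f_j ^ n - 1` for some `n ≥ 1`. -/
def TorsionBase {K : Type*} [Field K] {k : ℕ} (N : K[X]) (f : Fin k → K[X]) (m : Fin k → ℕ) : Prop :=
  N.Monic ∧ (∀ i, IsIntegral ℤ (N.coeff i)) ∧
  (∀ j, (f j).Monic ∧ 0 < (f j).natDegree ∧ ∀ i, IsIntegral ℤ ((f j).coeff i)) ∧
  (∀ i j, i ≠ j → IsCoprime (f i) (f j)) ∧ (∀ j, m j ≠ 0) ∧
  ∑ j, m j * (f j).natDegree < N.natDegree ∧ ∀ j, ∃ n l : ℕ, n ≠ 0 ∧ N ∣ (f j ^ n - 1) ^ l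

/-- The conditions on the polynomials in `x`: `G` has algebraic integers as coefficients, the `g_i` are
monic, not constant and pairwise coprime with algebraic integers as coefficients, they divide `G`, and
their zeros are simple zeros of `G`. -/
def SimpleFactors {K : Type*} [Field K] {r : ℕ} (G : K[X]) (g : Fin (r + 1) → K[X]) : Prop :=
  (∀ i, IsIntegral ℤ (G.coeff i)) ∧
  (∀ i, (g i).Monic ∧ 0 < (g i).natDegree ∧ (∀ j, IsIntegral ℤ ((g i).coeff j)) ∧ g i ∣ G ∧
    IsCoprime (g i) (derivative G)) ∧
  ∀ i j, i ≠ j → IsCoprime (g i) (g j)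

/-- The symbols `{f_j(z), g_i(x) ^ (e_l) / g_l(x) ^ (e_i)}`, `e_i = deg g_i`, have unramified images in
`K_2 ⊗ ℚ` of every field with a homomorphism from the coordinate ring of the open part of the curve
(for example, of the function field of the curve). -/
def UnramifiedSymbols.{u, v} {K : Type u} [Field K] {k r : ℕ} (D : Dat K k r) (lam : K) : Prop :=
  ∀ (L : Type v) [Field L] (h : D.Open lam →+* L) (j : Fin k) (i l : Fin (r + 1)),
    KQ.map 2 h (symb (D.ent lam j i l)) ∈ Unramified L 2

/-- There are `k r` loops in the complex points over `σ` of the open part of the curve, such that the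
determinant of the regulators on the loops of the `k r` symbols `{f_j(z), g_i(x)^(e_0) / g_0(x)^(e_i)}`,
`1 ≤ i ≤ r`, does not vanish. -/
def IndependentRegulators {K : Type*} [Field K] {k r : ℕ} (σ : K →+* ℂ) (D : Dat K k r) (lam : K) :
    Prop :=
  ∃ Γ : Fin k × Fin r → Torus (D.Open lam) 1,
    (∀ t θ (y : K), (Γ t).e θ (D.cst lam y) = σ y) ∧
    (Matrix.of fun t s : Fin k × Fin r => (Γ t).reg (symb (D.ent lam s.1 s.2.succ 0))).det ≠ 0

theorem Del_ne_zero {K : Type*} [Field K] {k r : ℕ} (σ : K →+* ℂ) {D : Dat K k r} (H : D.Ok)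
    {lam : K} (hlam : lam ≠ 0) : D.Del lam ≠ 0 := by
  have hl : σ lam ≠ 0 := (map_ne_zero σ).2 hlam
  -- a point of the open part
  set P : ℂ[X] := D.N.map σ * (D.M.map σ * ∏ j, (D.f j).map σ) with hP
  have hP0 : P ≠ 0 := mul_ne_zero (H.monicN.map σ).ne_zero (mul_ne_zero (H.monicM.map σ).ne_zero
    (Finset.prod_ne_zero_iff.2 fun j _ => ((H.monicf j).map σ).ne_zero))
  obtain ⟨z, hz⟩ : ∃ z, P.eval z ≠ 0 := by
    by_contra hcon
    push Not at hcon
    exact hP0 (Polynomial.funext fun z => by rw [hcon z, eval_zero])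
  rw [hP, eval_mul, eval_mul, eval_prod] at hz
  have hN := left_ne_zero_of_mul hz
  have hM := left_ne_zero_of_mul (right_ne_zero_of_mul hz)
  have hf := right_ne_zero_of_mul (right_ne_zero_of_mul hz)
  have hG0 : D.G ≠ 0 := by
    intro h
    obtain ⟨u, v, huv⟩ := H.simple 0
    rw [h, derivative_zero, mul_zero, add_zero] at huv
    have h1 := congrArg natDegree huv
    have hu : u ≠ 0 := by
      rintro rfl
      rw [zero_mul] at huv
      exact zero_ne_one huv
    rw [natDegree_mul hu (H.monicg 0).ne_zero, natDegree_one] at h1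
    have := H.degg 0
    omega
  have hGd : 0 < D.G.natDegree := (H.degg 0).trans_le (natDegree_le_of_dvd (H.dvd 0) hG0)
  set c : ℂ := (D.N.map σ).eval z / (σ lam * (D.M.map σ).eval z) with hc
  obtain ⟨x, hx⟩ : ∃ x, (D.G.map σ - C c).eval x = 0 := by
    refine IsAlgClosed.exists_root _ ?_
    have h1 : (D.G.map σ - C c).natDegree = D.G.natDegree := by
      rw [natDegree_sub_C, natDegree_map]
    have h2 : D.G.map σ - C c ≠ 0 := by
      intro h
      rw [h, natDegree_zero] at h1
      omega
    rw [degree_eq_natDegree h2, h1]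
    exact_mod_cast hGd.ne'
  rw [eval_sub, eval_C, sub_eq_zero] at hx
  have hc0 : c ≠ 0 := div_ne_zero hN (mul_ne_zero hl hM)
  have hpt : PtS σ D lam x z := by
    refine ⟨?_, fun i h => ?_, fun j h => ?_⟩
    · rw [← eval_map, ← eval_map, ← eval_map, hx, hc]
      field_simp
    · rw [← eval_map] at h
      exact hc0 (by rw [← hx]; exact H.G_zero σ h)
    · rw [← eval_map] at h
      exact hf (Finset.prod_eq_zero (Finset.mem_univ j) h)
  intro h
  exact hpt.evB_Del (by rw [h, map_zero])

theorem base_example {K : Type*} [Field K] [CharZero K] (a p q : ℕ) (hp : p ≠ 0) (hq : q ≠ 0)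
    (h : p + q < 2 * a) :
    TorsionBase ((X ^ 2 - X + 1 : K[X]) ^ a) ![X, X - 1] ![p, q] := by
  have hm : (X ^ 2 - X + 1 : K[X]).Monic := by monicity!
  have hd : (X ^ 2 - X + 1 : K[X]).natDegree = 2 := by compute_degree!
  have hint : ∀ P : K[X], P ∈ Polynomial.lifts (integralClosure ℤ K).toSubring.subtype →
      ∀ i, IsIntegral ℤ (P.coeff i) := fun P hP => (lifts_iff P).2 hP
  have hX : (X : K[X]) ∈ Polynomial.lifts (integralClosure ℤ K).toSubring.subtype :=
    Polynomial.X_mem_lifts _
  have hsub : ∀ P Q : K[X], (∀ i, IsIntegral ℤ (P.coeff i)) → (∀ i, IsIntegral ℤ (Q.coeff i)) →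
      ∀ i, IsIntegral ℤ ((P - Q).coeff i) := fun P Q hP hQ => isIntegral_coeff_sub hP hQ
  have h1 : ∀ i, IsIntegral ℤ ((1 : K[X]).coeff i) := hint _ (one_mem _)
  have hX1 : ∀ i, IsIntegral ℤ ((X - 1 : K[X]).coeff i) := hsub _ _ (hint _ hX) h1
  refine ⟨hm.pow a, ?_, ?_, ?_, ?_, ?_, ?_⟩
  · refine isIntegral_coeff_pow' ?_ a
    intro i
    rw [coeff_add]
    exact (hsub _ _ (isIntegral_coeff_pow' (hint _ hX) 2) (hint _ hX) i).add (h1 i)
  · intro j
    fin_cases j
    · exact ⟨monic_X, by simp, hint _ hX⟩
    · have h2 : (X - 1 : K[X]) = X - C 1 := by rw [C_1]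
      exact ⟨by
        show (X - 1 : K[X]).Monic
        rw [h2]
        exact monic_X_sub_C (1 : K), by
        show 0 < (X - 1 : K[X]).natDegree
        rw [h2, natDegree_X_sub_C]
        exact one_pos, hX1⟩
  · have hc : IsCoprime (X : K[X]) (X - 1) := ⟨1, -1, by ring⟩
    intro i j hij
    fin_cases i <;> fin_cases j
    · exact absurd rfl hij
    · exact hc
    · exact hc.symm
    · exact absurd rfl hij
  · intro j
    fin_cases j
    · exact hp
    · exact hq
  · rw [Fin.sum_univ_two, hm.natDegree_pow, hd]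
    have h2 : (X - 1 : K[X]) = X - C 1 := by rw [C_1]
    show p * (X : K[X]).natDegree + q * (X - 1 : K[X]).natDegree < a * 2
    rw [h2, natDegree_X_sub_C, natDegree_X]
    omega
  · intro j
    refine ⟨6, a, by norm_num, pow_dvd_pow_of_dvd ?_ a⟩
    fin_cases j
    · show (X ^ 2 - X + 1 : K[X]) ∣ X ^ 6 - 1
      exact ⟨(X + 1) * (X ^ 3 - 1), by ring⟩
    · show (X ^ 2 - X + 1 : K[X]) ∣ (X - 1) ^ 6 - 1
      exact ⟨X * (X - 2) * (X ^ 2 - 3 * X + 3), by ring⟩

/-- Let `K` be a number field and `σ` a complex embedding of `K`. Let `N, f_1, ..., f_k` be polynomials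
in `z` and `m_j ≥ 1` with the conditions `TorsionBase`: `N` and the `f_j` are monic and integral, the
`f_j` are not constant and pairwise coprime, `∑_j m_j deg f_j < deg N`, and `N` divides a power of
`f_j ^ n - 1` for some `n ≥ 1`. Let `G` be a polynomial in `x` with integral coefficients and
`g_0, ..., g_r` nonconstant pairwise coprime monic integral factors of `G`, whose zeros are simple zeros
of `G` (`SimpleFactors`). There is a constant `C` such that for all algebraic integers `λ` of `K` with
`|σ λ| ≥ C` the following holds for the affine curve `N(z) = λ G(x) ∏_j f_j(z) ^ m_j` with the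
coordinate ring `CRing`, and its open part `Δ = ∏_i g_i(x) ∏_j f_j(z) ≠ 0` with the coordinate ring
`Open`:

the ring `CRing` is a domain and `Δ ≠ 0`; if `G` is separable, the curve is smooth at all complex points
over `σ`; the symbols `{f_j(z), g_i(x) ^ (deg g_l) / g_l(x) ^ (deg g_i)}` of `K_2 (Open) ⊗ ℚ` have
unramified images in `K_2 (L) ⊗ ℚ` for all fields `L` with a homomorphism `Open → L`; and there are
`k r` loops in the complex points over `σ` of the open part such that the determinant of the regulators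
of the `k r` symbols `{f_j(z), g_i(x) ^ (deg g_0) / g_0(x) ^ (deg g_i)}`, `1 ≤ j ≤ k`, `1 ≤ i ≤ r`, on
the loops does not vanish.

For example, the conditions on the polynomials in `z` are satisfied, over every number field, for
example over `ℚ`, by `N = (z² - z + 1) ^ a`, `f = (z, z - 1)` and `m = (p, q)`, if `p, q ≥ 1` and
`p + q < 2 a`. -/
theorem result.{u, v} (K : Type u) [Field K] [NumberField K] :
    (∀ (σ : K →+* ℂ) (k r : ℕ) (D : Dat K k r), TorsionBase D.N D.f D.m →
      SimpleFactors D.G D.g →
      ∃ C : ℝ, ∀ lam : K, IsIntegral ℤ lam → C ≤ ‖σ lam‖ →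
        IsDomain (D.CRing lam) ∧ D.Del lam ≠ 0 ∧ (D.G.Separable → Smooth σ D lam) ∧
        UnramifiedSymbols.{u, v} D lam ∧ IndependentRegulators σ D lam) ∧
    ∀ a p q : ℕ, p ≠ 0 → q ≠ 0 → p + q < 2 * a →
      TorsionBase ((X ^ 2 - X + 1 : K[X]) ^ a) ![X, X - 1] ![p, q] := by
  refine ⟨fun σ k r D hz hx => ?_, fun a p q hp hq h => base_example a p q hp hq h⟩
  obtain ⟨z1, z2, z3, z4, z5, z6, z7⟩ := hz
  obtain ⟨x1, x2, x3⟩ := hx
  have H : D.Ok := ⟨z1, fun j => (z3 j).1, fun i => (x2 i).1, z2, fun j => (z3 j).2.2, x1,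
    fun i => (x2 i).2.2.1, z6, z5, z7, fun i => (x2 i).2.1, fun i => (x2 i).2.2.2.1,
    fun i => (x2 i).2.2.2.2⟩
  obtain ⟨C1, hC1⟩ := exists_domain σ H
  obtain ⟨C2, hC2⟩ := exists_loops σ H z4 (fun j => (z3 j).2.1) x3
  have hS : ∃ C3 : ℝ, ∀ lam : K, C3 ≤ ‖σ lam‖ → (D.G.Separable → Smooth σ D lam) := by
    by_cases hsep : D.G.Separable
    · obtain ⟨C3, hC3⟩ := exists_smooth σ H hsep
      exact ⟨C3, fun lam hlam _ => hC3 lam hlam⟩
    · exact ⟨0, fun _ _ h => absurd h hsep⟩
  obtain ⟨C3, hC3⟩ := hS
  refine ⟨max 1 (max C1 (max C2 C3)), fun lam hint hlam => ?_⟩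
  have l0 : 1 ≤ ‖σ lam‖ := (le_max_left _ _).trans hlam
  have l1 : C1 ≤ ‖σ lam‖ := ((le_max_left _ _).trans (le_max_right _ _)).trans hlam
  have l2 : C2 ≤ ‖σ lam‖ := (((le_max_left _ _).trans (le_max_right _ _)).trans
    (le_max_right _ _)).trans hlam
  have l3 : C3 ≤ ‖σ lam‖ := (((le_max_right _ _).trans (le_max_right _ _)).trans
    (le_max_right _ _)).trans hlam
  have hl0 : lam ≠ 0 := by
    rintro rfl
    rw [map_zero, norm_zero] at l0
    linarith
  exact ⟨hC1 lam l1, Del_ne_zero σ H hl0, hC3 lam l3,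
    fun L _ h j i l => symb_unramified h H hint j i l, hC2 lam l2⟩

end Pool.Agent.Results.MP_15b3df_nt.TorsionPencils
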