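import Pool.Agent.U374.Mn.Main
set_option autoImplicit false

/-!
Beilinson's conjecture on regulators for `i = dim X`, `m = 0`: on the fibrations
`W(z) = λ g(x) ∏_(j,i) P_(j,i)(x_0, ..., x_j) ^ (w_(j,i) + 1)` of arbitrary dimension, where the
`P_(j,i)` are arbitrary polynomials which are monic in `x_j` with integral coefficients (of any
degrees; their zero sets are in general not graphs), the symbols
`{z_0, ..., z_s, u_(0,T_0), ..., u_(d,T_d)}`, `u_(j,i) = P_(j,i) ^ e_(j,0) / P_(j,0) ^ e_(j,i)`,
`e_(j,i)` the degree of `P_(j,i)` in `x_j`, are unramified, and the regulators of those for which the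
hypersurfaces `P_(j,T_j) = 0` meet in a vertex are linearly independent, for all large integers `λ`.
-/

namespace Pool.Agent.Results.MP_15b3df_nt.TriangularSystems

open Pool.Agent.TH826.MK (KQ Unramified Torus)

open Pool.Agent.U374.Mn

section defs

/-- The symbols of all selections have unramified images in the Milnor K-theory of all fields `L`
with a homomorphism from the coordinate ring of the open part. -/
def UnramifiedSymbols.{u, v} {K : Type u} [Field K] {s d : ℕ} (A : Sys K s d) (lam : K) : Prop :=
  ∀ (T : A.Sel) (L : Type v) [Field L] (f : A.Open lam →+* L),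
    KQ.map _ f (A.sym lam T) ∈ Unramified L _

/-- There are tori `Γ_T` over `σ`, one for each selection `T` with a vertex, such that the vectors of
the regulators on these tori of the symbols of the selections with a vertex are linearly independent
over the real numbers. -/
def IndependentRegulators {K : Type*} [Field K] {s d : ℕ} (σ : K →+* ℂ) (A : Sys K s d)
    (lam : K) : Prop :=
  ∃ Γ : {T : A.Sel // A.HasVertex σ T} → Torus (A.Open lam) (s + (d + 1)),
    (∀ T θ (x : K), (Γ T).e θ (A.cst lam x) = σ x) ∧
    LinearIndependent ℝ fun (T' : {T : A.Sel // A.HasVertex σ T})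
      (T : {T : A.Sel // A.HasVertex σ T}) => (Γ T).reg (A.sym lam T'.1)

end defs

/-- Let `s, d ≥ 0`, let `σ` be a complex embedding of the number field `K`, and let `W` be a Laurent
polynomial in `z_0, ..., z_s` over `K` such that the origin is an interior point of the Newton
polytope (`Interior`) and `W` divides, up to a Laurent polynomial `Q ≠ 0` with integral coefficients,
a product of sums `∑_i ε_i z^{m_i}` with affinely independent exponents `m_i` and roots of unity
`ε_i` (`Tame`). For `0 ≤ j ≤ d` and `0 ≤ i ≤ r_j` let `P_(j,i)` be a polynomial in `x_0, ..., x_j`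
over `K` with integral coefficients, monic of degree `e_(j,i) > 0` in `x_j` (that is,
`P_(j,i) - x_j ^ e_(j,i)` has degree less than `e_(j,i)` in `x_j`); let `w_(j,i) ≥ 0` be integers, and
let `g` be a polynomial in `x_0, ..., x_d` with integral coefficients.

There is a constant `C` such that for all algebraic integers `λ` of `K` with `|σ λ| ≥ C` the following
holds for the hypersurface `W(z) = Φ(x)`, `Φ = λ g ∏_(j,i) P_(j,i) ^ (w_(j,i) + 1)`, `z_i ≠ 0`, of
dimension `s + d + 1`, and the coordinate ring `A` of its open part `Φ ≠ 0`.

For all `T = (T_0, ..., T_d)`, `1 ≤ T_j ≤ r_j`, the symbol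
`{z_0, ..., z_s, u_(0,T_0), ..., u_(d,T_d)}`, `u_(j,i) = P_(j,i) ^ e_(j,0) / P_(j,0) ^ e_(j,i)`, in the
Milnor K-theory of `A` has unramified images in the Milnor K-theory of all fields `L` with a
homomorphism `A → L`.

The selection `T` has a vertex, if there is a complex point `x` with `P_(j,T_j)(x) = 0` and
`(∂P_(j,T_j)/∂x_j)(x) ≠ 0` for all `j`, `P_(j,i)(x) ≠ 0` for all `j` and `i ≠ T_j`, and `g(x) ≠ 0`.
There are tori `Γ_T` of dimension `s + d + 1` in the complex points (over `σ`) of the open part, one
for each selection with a vertex, such that the regulators on these tori of the symbols of the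
selections with a vertex are linearly independent over the real numbers. -/
theorem result.{u, v} (s d : ℕ) (K : Type u) [Field K] [NumberField K] (σ : K →+* ℂ)
    (A : Sys K s d) (hA : A.Admissible) :
    ∃ C : ℝ, ∀ lam : K, IsIntegral ℤ lam → C ≤ ‖σ lam‖ →
      UnramifiedSymbols.{u, v} A lam ∧ IndependentRegulators σ A lam := by
  obtain ⟨C, hC⟩ := Sys.exists_indep σ hA
  exact ⟨C, fun lam hlam hl => ⟨fun T L _ f => Sys.unram hA hlam T L f, hC lam hl⟩⟩

end Pool.Agent.Results.MP_15b3df_nt.TriangularSystems
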